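import Pool.Agent.Helper52.PG.Sphere
import Pool.Agent.Helper52.OT.Sound

/-!
Two preorders which are invariant on both sides: the order of the automorphisms of a linear order,
and the preorder of the rules of positivity.
-/

set_option autoImplicit false

namespace Pool.Agent.Helper52.PG

open Pool.Agent.Helper42.Th (CMap Lab)
open Pool.Agent.Helper52.OT (Pos)

/-- The pointwise order of the automorphisms of a linear order. -/
theorem cone_aut (X : Type*) [LinearOrder X] :
    Cone {f : X ≃o X | ∀ z, z ≤ f z} {f : X ≃o X | ∀ z, z < f z} where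
  one z := le_refl z
  sub f hf z := (hf z).le
  mul f hf g hg z := (hg z).trans (hf _)
  mul_left f hf g hg z := (hg z).trans_lt (hf _)
  mul_right f hf g hg z := (hg z).trans_le (hf _)
  conj g f hf z := by
    have h := g.monotone (hf (g⁻¹ z))
    rw [RelIso.apply_inv_self] at h
    exact h
  conj' g f hf z := by
    have h := g.strictMono (hf (g⁻¹ z))
    rw [RelIso.apply_inv_self] at h
    exact h

universe u

variable {E : Type} {G : Type u} [Group G]

/-- The preorder of the rules of positivity, on the subgroup of all labels. -/
theorem cone_pos (Γ : CMap E) (L : Lab G Γ) (δ : E) (q p : ℕ) :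
    Cone {g : Subgroup.closure L.elts | Pos Γ L δ q p false (g : G)}
      {g : Subgroup.closure L.elts | Pos Γ L δ q p true (g : G)} where
  one := Pos.one Γ L δ q p
  sub _ hg := Pos.weak Γ L δ q p _ hg
  mul _ ha _ hb := Pos.mul Γ L δ q p false false _ _ ha hb
  mul_left _ ha _ hb := Pos.mul Γ L δ q p true false _ _ ha hb
  mul_right _ ha _ hb := Pos.mul Γ L δ q p false true _ _ ha hb
  conj g _ ha := Pos.conj Γ L δ q p false _ _ g.2 ha
  conj' g _ ha := Pos.conj Γ L δ q p true _ _ g.2 ha

end Pool.Agent.Helper52.PG
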