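import Mathlib

/-!
Polygons glued along cells in a group with a preorder which is invariant on both sides.

Every cell `w` has two letters `c w true` and `c w false` such that the product of their values
is at most `1`; each of them is in one polygon.  The words of the polygons are nonnegative.
-/

set_option autoImplicit false

namespace Pool.Agent.Helper52.PG

/-- The nonnegative and the positive elements of a preorder which is invariant on both sides. -/
structure Cone {G : Type*} [Group G] (P P' : Set G) : Prop where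
  one : 1 ∈ P
  sub : P' ⊆ P
  mul : ∀ a ∈ P, ∀ b ∈ P, a * b ∈ P
  mul_left : ∀ a ∈ P', ∀ b ∈ P, a * b ∈ P'
  mul_right : ∀ a ∈ P, ∀ b ∈ P', a * b ∈ P'
  conj : ∀ g : G, ∀ a ∈ P, g * a * g⁻¹ ∈ P
  conj' : ∀ g : G, ∀ a ∈ P', g * a * g⁻¹ ∈ P'

/-- The letters: two for every cell, and some others. -/
inductive Letter (W D : Type*)
  | c (w : W) (b : Bool) : Letter W D
  | d (e : D) : Letter W D

variable {G : Type*} [Group G] {W D I T : Type*}

/-- A list of letters is a walk from `s` to `t`. -/
def Walk (src tgt : Letter W D → T) : T → List (Letter W D) → T → Prop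
  | s, [], t => s = t
  | s, x :: l, t => s = src x ∧ Walk src tgt (tgt x) l t

section walk

variable {src tgt : Letter W D → T}

lemma walk_append {s t : T} {l l' : List (Letter W D)} :
    Walk src tgt s (l ++ l') t ↔ ∃ m, Walk src tgt s l m ∧ Walk src tgt m l' t := by
  induction l generalizing s with
  | nil =>
    constructor
    · intro h
      exact ⟨s, rfl, h⟩
    · rintro ⟨m, h1, h2⟩
      have h3 : s = m := h1
      rw [h3]
      exact h2
  | cons x l ih =>
    constructor
    · rintro ⟨h1, h2⟩
      obtain ⟨m, h3, h4⟩ := ih.mp h2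
      exact ⟨m, ⟨h1, h3⟩, h4⟩
    · rintro ⟨m, ⟨h1, h2⟩, h3⟩
      exact ⟨h1, ih.mpr ⟨m, h2, h3⟩⟩

open Classical in
/-- The points visited by a walk from `s`. -/
noncomputable def Vis (src : Letter W D → T) (s : T) (l : List (Letter W D)) : Finset T :=
  insert s (l.map src).toFinset

lemma mem_vis {s t : T} {l : List (Letter W D)} :
    t ∈ Vis src s l ↔ t = s ∨ ∃ x ∈ l, src x = t := by
  classical
  rw [Vis, Finset.mem_insert, List.mem_toFinset, List.mem_map]

lemma walk_start {s t : T} {l : List (Letter W D)} (h : Walk src tgt s l t) :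
    s = t ∨ ∃ x ∈ l, src x = s := by
  rcases l with _ | ⟨x, l⟩
  · exact Or.inl h
  · exact Or.inr ⟨x, by simp, h.1.symm⟩

end walk

section prod

variable {P P' : Set G} (hP : Cone P P') (val : Letter W D → G)

/-- The value of a word. -/
def pr (val : Letter W D → G) (l : List (Letter W D)) : G := (l.map val).prod

lemma pr_append (l l' : List (Letter W D)) : pr val (l ++ l') = pr val l * pr val l' := by
  simp [pr]

lemma pr_cons (x : Letter W D) (l : List (Letter W D)) : pr val (x :: l) = val x * pr val l := by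
  simp [pr]

include hP

lemma Cone.conj_inv (g a : G) (ha : a ∈ P) : g⁻¹ * a * g ∈ P := by
  have := hP.conj g⁻¹ a ha
  rwa [inv_inv] at this

lemma Cone.conj_inv' (g a : G) (ha : a ∈ P') : g⁻¹ * a * g ∈ P' := by
  have := hP.conj' g⁻¹ a ha
  rwa [inv_inv] at this

/-- Two polygons are merged: `A x B`, `C y D` with `x y ≤ 1` give `A D C B`. -/
lemma merge_word {A B C D x y : G} (h1 : A * (x * B) ∈ P) (h2 : C * (y * D) ∈ P)
    (h3 : (x * y)⁻¹ ∈ P) : A * (D * C * B) ∈ P ∧
      (A * (x * B) ∈ P' ∨ C * (y * D) ∈ P' ∨ (x * y)⁻¹ ∈ P' → A * (D * C * B) ∈ P') := by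
  have e : A * (D * C * B) = (A * (x * B)) *
      (B⁻¹ * ((y * (x * y)⁻¹ * y⁻¹) * (C⁻¹ * (C * (y * D)) * C)) * B) := by
    group
  have m1 : C⁻¹ * (C * (y * D)) * C ∈ P := hP.conj_inv _ _ h2
  have m2 : y * (x * y)⁻¹ * y⁻¹ ∈ P := hP.conj _ _ h3
  constructor
  · rw [e]
    exact hP.mul _ h1 _ (hP.conj_inv _ _ (hP.mul _ m2 _ m1))
  · intro h
    rw [e]
    rcases h with h | h | h
    · exact hP.mul_left _ h _ (hP.conj_inv _ _ (hP.mul _ m2 _ m1))
    · exact hP.mul_right _ h1 _ (hP.conj_inv' _ _ (hP.mul_right _ m2 _ (hP.conj_inv' _ _ h)))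
    · exact hP.mul_right _ h1 _ (hP.conj_inv' _ _ (hP.mul_left _ (hP.conj' _ _ h) _ m1))

/-- Two neighbouring letters are cancelled: `x E y` with `y x ≤ 1` gives `E`. -/
lemma cancel_word {E x y : G} (h1 : x * (E * y) ∈ P) (h3 : (y * x)⁻¹ ∈ P) : E ∈ P ∧
      (x * (E * y) ∈ P' ∨ (y * x)⁻¹ ∈ P' → E ∈ P') := by
  have e : E = (x⁻¹ * (x * (E * y)) * x) * (y * x)⁻¹ := by
    group
  have m1 := hP.conj_inv x _ h1
  constructor
  · rw [e]
    exact hP.mul _ m1 _ h3
  · intro h
    rw [e]
    rcases h with h | h
    · exact hP.mul_left _ (hP.conj_inv' x _ h) _ h3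
    · exact hP.mul_right _ m1 _ h

end prod

section glue

open Classical

/-- Polygons (closed walks with nonnegative words) which are connected by cells. -/
structure Glue (P P' : Set G) (src tgt : Letter W D → T) (val : Letter W D → G)
    (poly : I → List (Letter W D)) (own : W → Bool → I) (str : W → Prop) (strp : I → Prop)
    [Fintype I] : Prop where
  cone : Cone P P'
  cnt : ∀ w b i, (poly i).count (.c w b) = if i = own w b then 1 else 0
  walk : ∀ i, ∃ s, Walk src tgt s (poly i) s
  st : ∀ w b, src (.c w (!b)) = tgt (.c w b)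
  pos : ∀ i, pr val (poly i) ∈ P
  pos' : ∀ i, strp i → pr val (poly i) ∈ P'
  bar : ∀ w b, (val (.c w b) * val (.c w (!b)))⁻¹ ∈ P
  bar' : ∀ w b, str w → (val (.c w b) * val (.c w (!b)))⁻¹ ∈ P'
  conn : ∀ C : Finset I, C.Nonempty → C ≠ Finset.univ → ∃ w b, own w b ∈ C ∧ own w (!b) ∉ C

/-- The polygons of `C` are merged to the polygon `p` along the cells of `U`. -/
structure Inv (P P' : Set G) (src tgt : Letter W D → T) (val : Letter W D → G)
    (poly : I → List (Letter W D)) (own : W → Bool → I) (str : W → Prop) (strp : I → Prop)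
    (C : Finset I) (U : Finset W) (s : T) (p : List (Letter W D)) : Prop where
  card : C.card = U.card + 1
  mem : ∀ w ∈ U, ∀ b, own w b ∈ C
  cnt : ∀ w b, p.count (.c w b) = if w ∉ U ∧ own w b ∈ C then 1 else 0
  dead : ∀ e, p.count (.d e) = ∑ i ∈ C, (poly i).count (.d e)
  walk : Walk src tgt s p s
  vis : ∀ i ∈ C, ∀ z ∈ poly i, src z ∈ Vis src s p
  pos : pr val p ∈ P
  str' : ((∃ w ∈ U, str w) ∨ ∃ i ∈ C, strp i) → pr val p ∈ P'

variable {P P' : Set G} {src tgt : Letter W D → T} {val : Letter W D → G}
  {poly : I → List (Letter W D)} {own : W → Bool → I} {str : W → Prop} {strp : I → Prop} [Fintype I]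

/-- One polygon. -/
lemma Glue.start (H : Glue P P' src tgt val poly own str strp) (i : I) :
    ∃ s, Inv P P' src tgt val poly own str strp {i} ∅ s (poly i) := by
  obtain ⟨s, hs⟩ := H.walk i
  refine ⟨s, by simp, by simp, fun w b => ?_, by simp, hs, fun i' hi' z hz => ?_, H.pos i, ?_⟩
  · rw [H.cnt]
    refine if_congr ?_ rfl rfl
    rw [Finset.mem_singleton]
    constructor
    · intro h
      exact ⟨Finset.notMem_empty _, h.symm⟩
    · intro h
      exact h.2.symm
  · rw [Finset.mem_singleton] at hi'
    subst hi'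
    exact mem_vis.mpr (Or.inr ⟨z, hz, rfl⟩)
  · rintro (⟨w, hw, _⟩ | ⟨i', hi', h⟩)
    · exact absurd hw (Finset.notMem_empty _)
    · rw [Finset.mem_singleton] at hi'
      subst hi'
      exact H.pos' _ h

/-- Another polygon is merged. -/
lemma Glue.step (H : Glue P P' src tgt val poly own str strp) {C : Finset I} {U : Finset W} {s : T}
    {p : List (Letter W D)} (h : Inv P P' src tgt val poly own str strp C U s p)
    (hC : C ≠ Finset.univ) : ∃ j ∉ C, ∃ w ∉ U, ∃ p',
      Inv P P' src tgt val poly own str strp (insert j C) (insert w U) s p' := by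
  obtain ⟨w, b, h1, h2⟩ := H.conn C (Finset.card_pos.mp (by rw [h.card]; omega)) hC
  have hwU : w ∉ U := fun h3 => h2 (h.mem w h3 _)
  have hap : p.count (.c w b) = 1 := by
    rw [h.cnt, if_pos ⟨hwU, h1⟩]
  have haq : (poly (own w (!b))).count (.c w (!b)) = 1 := by
    rw [H.cnt, if_pos rfl]
  obtain ⟨A, B, rfl⟩ := List.append_of_mem (List.count_pos_iff.mp (by rw [hap]; exact one_pos))
  obtain ⟨A', B', hq⟩ := List.append_of_mem (List.count_pos_iff.mp (by rw [haq]; exact one_pos))
  set j := own w (!b) with hj
  -- the counts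
  have hcount : ∀ z : Letter W D, (A ++ (B' ++ A' ++ B)).count z +
      ((if Letter.c w b = z then 1 else 0) + (if Letter.c w (!b) = z then 1 else 0)) =
        (A ++ .c w b :: B).count z + (poly j).count z := by
    intro z
    rw [hq]
    simp only [List.count_append, List.count_cons, beq_iff_eq]
    omega
  obtain ⟨t, ht⟩ := H.walk j
  rw [hq] at ht
  obtain ⟨m, hm1, hm2⟩ := walk_append.mp ht
  obtain ⟨m', hm3, hm4⟩ := walk_append.mp h.walk
  have e1 : m = tgt (.c w b) := hm2.1.trans (H.st w b)
  have e2 : tgt (.c w (!b)) = src (.c w b) := by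
    have := H.st w (!b)
    rw [Bool.not_not] at this
    exact this.symm
  have e3 : m' = src (.c w b) := hm4.1
  have hw : Walk src tgt s (A ++ (B' ++ A' ++ B)) s := by
    refine walk_append.mpr ⟨m', hm3, ?_⟩
    refine walk_append.mpr ⟨m, walk_append.mpr ⟨t, ?_, hm1⟩, ?_⟩
    · rw [e3, ← e2]
      exact hm2.2
    · rw [e1]
      exact hm4.2
  have hmw := merge_word H.cone (A := pr val A) (B := pr val B) (C := pr val A') (D := pr val B')
    (x := val (.c w b)) (y := val (.c w (!b))) (by
      have := h.pos
      rwa [pr_append, pr_cons] at this) (by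
      have := H.pos j
      rwa [hq, pr_append, pr_cons] at this) (H.bar w b)
  refine ⟨j, h2, w, hwU, A ++ (B' ++ A' ++ B), ?_, ?_, ?_, ?_, hw, ?_, ?_, ?_⟩
  · rw [Finset.card_insert_of_notMem h2, Finset.card_insert_of_notMem hwU, h.card]
  · intro w' hw' b'
    rcases Finset.mem_insert.mp hw' with rfl | hw'
    · by_cases hb : b' = b
      · rw [hb]
        exact Finset.mem_insert_of_mem h1
      · have : b' = !b := by
          cases b <;> cases b' <;> simp_all
        rw [this]
        exact Finset.mem_insert_self _ _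
    · exact Finset.mem_insert_of_mem (h.mem w' hw' b')
  · intro w' b'
    have h3 := hcount (.c w' b')
    rw [h.cnt, H.cnt] at h3
    by_cases hww : w' = w
    · subst hww
      rw [if_neg (fun h => h.1 (Finset.mem_insert_self _ _))]
      by_cases hb : b' = b
      · subst hb
        have i1 : ¬ Letter.c (D := D) w' (!b') = Letter.c w' b' := by
          intro h4
          injection h4 with h5 h6
          cases b' <;> simp at h6
        have i2 : ¬ j = own w' b' := fun h4 => h2 (h4 ▸ h1)
        rw [if_pos (show Letter.c (D := D) w' b' = Letter.c w' b' from rfl), if_neg i1,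
          if_pos (show w' ∉ U ∧ own w' b' ∈ C from ⟨hwU, h1⟩), if_neg i2] at h3
        omega
      · have hb' : b' = !b := by
          cases b <;> cases b' <;> simp_all
        subst hb'
        have i1 : ¬ Letter.c (D := D) w' b = Letter.c w' (!b) := by
          intro h4
          injection h4 with h5 h6
          cases b <;> simp at h6
        rw [if_neg i1, if_pos (show Letter.c (D := D) w' (!b) = Letter.c w' (!b) from rfl),
          if_neg (show ¬ (w' ∉ U ∧ own w' (!b) ∈ C) from fun h => h2 h.2),
          if_pos (show j = own w' (!b) from hj)] at h3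
        omega
    · have i1 : ∀ b'' : Bool, ¬ Letter.c (D := D) w b'' = Letter.c w' b' := by
        intro b'' h4
        injection h4 with h5 _
        exact hww h5.symm
      rw [if_neg (i1 b), if_neg (i1 (!b)), add_zero, add_zero] at h3
      rw [h3]
      have h5 : w' ∉ insert w U ↔ w' ∉ U := by
        rw [Finset.mem_insert]
        tauto
      by_cases hU : w' ∈ U
      · have i2 : ¬ j = own w' b' := fun h6 => h2 (h6 ▸ h.mem w' hU b')
        rw [if_neg (show ¬ (w' ∉ U ∧ own w' b' ∈ C) from fun h => h.1 hU), if_neg i2,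
          if_neg (fun h => h5.mp h.1 hU)]
      · by_cases ho : own w' b' ∈ C
        · have i2 : ¬ j = own w' b' := fun h6 => h2 (h6 ▸ ho)
          rw [if_pos (show w' ∉ U ∧ own w' b' ∈ C from ⟨hU, ho⟩), if_neg i2,
            if_pos ⟨h5.mpr hU, Finset.mem_insert_of_mem ho⟩]
        · rw [if_neg (show ¬ (w' ∉ U ∧ own w' b' ∈ C) from fun h => ho h.2), zero_add]
          refine if_congr ?_ rfl rfl
          constructor
          · intro h6
            exact ⟨h5.mpr hU, Finset.mem_insert.mpr (Or.inl h6.symm)⟩
          · rintro ⟨-, h6⟩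
            rcases Finset.mem_insert.mp h6 with h6 | h6
            · exact h6.symm
            · exact absurd h6 ho
  · intro e
    have h3 := hcount (.d e)
    rw [if_neg (by simp), if_neg (by simp), add_zero, add_zero] at h3
    rw [h3, h.dead, Finset.sum_insert h2, add_comm]
  · intro i hi z hz
    have k1 : ∀ x ∈ A ++ (B' ++ A' ++ B), src x ∈ Vis src s (A ++ (B' ++ A' ++ B)) :=
      fun x hx => mem_vis.mpr (Or.inr ⟨x, hx, rfl⟩)
    have k2 : src (.c w b) ∈ Vis src s (A ++ (B' ++ A' ++ B)) := by
      obtain ⟨m'', h6, h7⟩ := walk_append.mp hw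
      have h8 : Walk src tgt (src (.c w b)) (B' ++ A' ++ B) s := by
        refine walk_append.mpr ⟨m, walk_append.mpr ⟨t, ?_, hm1⟩, ?_⟩
        · rw [← e2]
          exact hm2.2
        · rw [e1]
          exact hm4.2
      rcases walk_start h8 with h9 | ⟨x, hx, h9⟩
      · exact mem_vis.mpr (Or.inl h9)
      · exact mem_vis.mpr (Or.inr ⟨x, List.mem_append_right _ hx, h9⟩)
    have k3 : tgt (.c w b) ∈ Vis src s (A ++ (B' ++ A' ++ B)) := by
      rcases walk_start hm4.2 with h9 | ⟨x, hx, h9⟩
      · exact mem_vis.mpr (Or.inl h9)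
      · exact mem_vis.mpr (Or.inr ⟨x, List.mem_append_right _ (List.mem_append_right _ hx), h9⟩)
    rcases Finset.mem_insert.mp hi with rfl | hi
    · rw [hq] at hz
      rcases List.mem_append.mp hz with hz | hz
      · exact k1 z (by simp [hz])
      · rcases List.mem_cons.mp hz with rfl | hz
        · rw [H.st w b]
          exact k3
        · exact k1 z (by simp [hz])
    · rcases mem_vis.mp (h.vis i hi z hz) with h6 | ⟨x, hx, h6⟩
      · exact mem_vis.mpr (Or.inl h6)
      · rw [← h6]
        rcases List.mem_append.mp hx with hx | hx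
        · exact k1 x (by simp [hx])
        · rcases List.mem_cons.mp hx with rfl | hx
          · exact k2
          · exact k1 x (by simp [hx])
  · have := hmw.1
    rwa [← pr_append, ← pr_append, ← pr_append] at this
  · intro hs
    have h6 : pr val A * (pr val B' * pr val A' * pr val B) ∈ P' := by
      refine hmw.2 ?_
      rcases hs with ⟨w', hw', hs⟩ | ⟨i', hi', hs⟩
      · rcases Finset.mem_insert.mp hw' with rfl | hw'
        · exact Or.inr (Or.inr (H.bar' w' b hs))
        · refine Or.inl ?_
          have := h.str' (Or.inl ⟨w', hw', hs⟩)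
          rwa [pr_append, pr_cons] at this
      · rcases Finset.mem_insert.mp hi' with rfl | hi'
        · refine Or.inr (Or.inl ?_)
          have := H.pos' _ hs
          rwa [hq, pr_append, pr_cons] at this
        · refine Or.inl ?_
          have := h.str' (Or.inr ⟨i', hi', hs⟩)
          rwa [pr_append, pr_cons] at this
    rwa [← pr_append, ← pr_append, ← pr_append] at h6

/-- All polygons are merged. -/
theorem Glue.all [Nonempty I] (H : Glue P P' src tgt val poly own str strp) :
    ∃ U s p, Inv P P' src tgt val poly own str strp Finset.univ U s p := by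
  have key : ∀ n, 1 ≤ n → n ≤ Fintype.card I → ∃ C U s p, C.card = n ∧
      Inv P P' src tgt val poly own str strp C U s p := by
    intro n hn
    induction n, hn using Nat.le_induction with
    | base =>
      intro _
      obtain ⟨i⟩ := (inferInstance : Nonempty I)
      obtain ⟨s, hs⟩ := H.start i
      exact ⟨{i}, ∅, s, poly i, by simp, hs⟩
    | succ n hn ih =>
      intro h1
      obtain ⟨C, U, s, p, h2, h3⟩ := ih (by omega)
      obtain ⟨j, hj, w, hw, p', h4⟩ := H.step h3 (by
        rintro rfl
        rw [Finset.card_univ] at h2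
        omega)
      exact ⟨insert j C, insert w U, s, p', by rw [Finset.card_insert_of_notMem hj, h2], h4⟩
  obtain ⟨C, U, s, p, h1, h2⟩ := key (Fintype.card I) Fintype.card_pos le_rfl
  rw [Finset.card_eq_iff_eq_univ] at h1
  subst h1
  exact ⟨U, s, p, h2⟩

end glue

end Pool.Agent.Helper52.PG
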