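import Pool.Agent.Helper52.PG.Merge

/-!
Polygons glued along cells in a group with a preorder which is invariant on both sides: trees of
polygons, and spheres.
-/

set_option autoImplicit false

namespace Pool.Agent.Helper52.PG

open Classical

variable {G : Type*} [Group G] {W D I T : Type*}
variable {P P' : Set G} {src tgt : Letter W D → T} {val : Letter W D → G}
  {poly : I → List (Letter W D)} {own : W → Bool → I} {str : W → Prop} {strp : I → Prop}

lemma bool_ne {b c : Bool} (h : ¬ c = b) : c = !b := by
  cases b <;> cases c <;> simp_all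

/-- A closed walk which uses the cells of `S` once in each direction and visits more points than
there are cells. -/
theorem cancel (cone : Cone P P') (st : ∀ w b, src (.c w (!b)) = tgt (.c w b))
    (bar : ∀ w b, (val (.c w b) * val (.c w (!b)))⁻¹ ∈ P)
    (bar' : ∀ w b, str w → (val (.c w b) * val (.c w (!b)))⁻¹ ∈ P') :
    ∀ (n : ℕ) (S : Finset W) (s : T) (p : List (Letter W D)), S.card = n →
      Walk src tgt s p s → (∀ w b, p.count (.c w b) = if w ∈ S then 1 else 0) →
      (∀ e, p.count (.d e) = 0) → n + 1 ≤ (Vis src s p).card → pr val p ∈ P →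
      (pr val p ∈ P' ∨ ∃ w ∈ S, str w) → 1 ∈ P' := by
  intro n
  induction n with
  | zero =>
    intro S s p hS hw hc hd _ _ hstr
    obtain rfl := Finset.card_eq_zero.mp hS
    have hp : p = [] := by
      rcases p with _ | ⟨x, p⟩
      · rfl
      · exfalso
        cases x with
        | c w b =>
          have := hc w b
          rw [if_neg (Finset.notMem_empty _), List.count_cons_self] at this
          omega
        | d e =>
          have := hd e
          rw [List.count_cons_self] at this
          omega
    rcases hstr with h | ⟨w, hw, _⟩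
    · rw [hp] at h
      exact h
    · exact absurd hw (Finset.notMem_empty _)
  | succ n ih =>
    intro S s p hS hw hc hd hv hp hstr
    -- letters
    have hlet : ∀ x ∈ p, ∃ w b, x = .c w b ∧ w ∈ S := by
      intro x hx
      cases x with
      | c w b =>
        refine ⟨w, b, rfl, ?_⟩
        by_contra h
        have h1 := hc w b
        rw [if_neg h] at h1
        exact List.count_eq_zero.mp h1 hx
      | d e => exact absurd hx (List.count_eq_zero.mp (hd e))
    have hmem : ∀ w ∈ S, ∀ b, Letter.c w b ∈ p := by
      intro w hw b
      have h1 := hc w b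
      rw [if_pos hw] at h1
      exact List.count_pos_iff.mp (by rw [h1]; exact one_pos)
    have hSne : S.Nonempty := Finset.card_pos.mp (by omega)
    obtain ⟨w₀, hw₀⟩ := hSne
    -- the base point is the start of a letter
    have hs : ∃ x ∈ p, src x = s := by
      rcases p with _ | ⟨x, p⟩
      · exact absurd (hmem w₀ hw₀ true) (by simp)
      · exact ⟨x, by simp, hw.1.symm⟩
    have hvis : ∀ t ∈ Vis src s p, ∃ x ∈ p, src x = t := by
      intro t ht
      rcases mem_vis.mp ht with h | h
      · rw [h]
        exact hs
      · exact h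
    -- a point visited once
    have hcardF : p.toFinset.card ≤ S.card * 2 := by
      have h1 : p.toFinset ⊆ (S ×ˢ (Finset.univ : Finset Bool)).image fun q => Letter.c q.1 q.2 := by
        intro x hx
        obtain ⟨w, b, rfl, h2⟩ := hlet x (List.mem_toFinset.mp hx)
        exact Finset.mem_image.mpr ⟨(w, b), Finset.mem_product.mpr ⟨h2, Finset.mem_univ _⟩, rfl⟩
      refine (Finset.card_le_card h1).trans (Finset.card_image_le.trans ?_)
      rw [Finset.card_product, Finset.card_univ, Fintype.card_bool]
    obtain ⟨y, hy, hy1⟩ := Finset.exists_card_fiber_lt_of_card_lt_mul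
      (s := p.toFinset) (t := Vis src s p) (f := src) (n := 2) (by omega)
    obtain ⟨x, hx, hxy⟩ := hvis y hy
    have huniq : ∀ z ∈ p, src z = y → z = x := by
      intro z hz hzy
      have h1 : ({a ∈ p.toFinset | src a = y}).card ≤ 1 := by omega
      exact Finset.card_le_one.mp h1 z (Finset.mem_filter.mpr ⟨List.mem_toFinset.mpr hz, hzy⟩) x
        (Finset.mem_filter.mpr ⟨List.mem_toFinset.mpr hx, hxy⟩)
    obtain ⟨w, b, rfl, hwS⟩ := hlet x hx
    obtain ⟨A, B, rfl⟩ := List.append_of_mem hx
    -- the rotated walk
    obtain ⟨m, hm1, hm2⟩ := walk_append.mp hw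
    have hm : m = src (.c w b) := hm2.1
    have hrot : Walk src tgt (tgt (.c w b)) (B ++ A) (src (.c w b)) :=
      walk_append.mpr ⟨s, hm2.2, hm ▸ hm1⟩
    have hcr : ∀ u : Letter W D, (B ++ A).count u + (if Letter.c w b = u then 1 else 0) =
        (A ++ .c w b :: B).count u := by
      intro u
      simp only [List.count_append, List.count_cons, beq_iff_eq]
      omega
    have hne : ¬ Letter.c (D := D) w b = Letter.c w (!b) := by
      intro h4
      injection h4 with h5 h6
      cases b <;> simp at h6
    have hbar_mem : Letter.c w (!b) ∈ B ++ A := by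
      have h1 := hcr (.c w (!b))
      rw [if_neg hne, hc, if_pos hwS, add_zero] at h1
      exact List.count_pos_iff.mp (by rw [h1]; exact one_pos)
    obtain ⟨E, z, hEz⟩ : ∃ E z, B ++ A = E ++ [z] := by
      rcases List.eq_nil_or_concat (B ++ A) with h | ⟨E, z, h⟩
      · rw [h] at hbar_mem
        exact absurd hbar_mem (by simp)
      · exact ⟨E, z, by simpa using h⟩
    rw [hEz] at hrot
    obtain ⟨m', hm3, hm4⟩ := walk_append.mp hrot
    have hm5 : m' = src z := hm4.1
    have hm6 : tgt z = src (.c w b) := hm4.2
    have hzBA : z ∈ B ++ A := by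
      rw [hEz]
      simp
    have hzp : z ∈ A ++ .c w b :: B := by
      rcases List.mem_append.mp hzBA with h | h
      · simp [h]
      · simp [h]
    obtain ⟨w', b', rfl, hw'S⟩ := hlet z hzp
    have h1 : Letter.c (D := D) w' (!b') = Letter.c w b := by
      refine huniq _ (hmem w' hw'S (!b')) ?_
      rw [st, hm6, hxy]
    obtain ⟨h2, h3⟩ : w' = w ∧ (!b') = b := by
      injection h1 with h5 h6
      exact ⟨h5, h6⟩
    subst h2 h3
    -- now `z = c w' b'`
    have hcE : ∀ u : Letter W D, E.count u + ((if Letter.c w' b' = u then 1 else 0) +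
        (if Letter.c w' (!b') = u then 1 else 0)) = (A ++ .c w' (!b') :: B).count u := by
      intro u
      rw [← hcr u, hEz]
      simp only [List.count_append, List.count_cons, List.count_nil, beq_iff_eq]
      omega
    have hval : pr val (A ++ .c w' (!b') :: B) ∈ P := hp
    have hrotv : val (.c w' (!b')) * (pr val E * val (.c w' b')) =
        (pr val A)⁻¹ * pr val (A ++ .c w' (!b') :: B) * pr val A := by
      have h4 : pr val E * val (.c w' b') = pr val B * pr val A := by
        rw [← pr_append, hEz, pr_append]
        simp [pr]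
      rw [h4, pr_append, pr_cons]
      group
    have hstr' : val (.c w' (!b')) * (pr val E * val (.c w' b')) ∈ P := by
      rw [hrotv]
      exact cone.conj_inv _ _ hval
    have hb1 := bar w' b'
    have hcw := cancel_word cone hstr' hb1
    refine ih (S.erase w') (tgt (.c w' (!b'))) E ?_ ?_ ?_ ?_ ?_ hcw.1 ?_
    · rw [Finset.card_erase_of_mem hwS, hS]
      rfl
    · have h4 : m' = tgt (.c w' (!b')) := by
        rw [hm5]
        have := st w' (!b')
        rw [Bool.not_not] at this
        exact this
      rw [h4] at hm3
      exact hm3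
    · intro u c
      have h4 := hcE (.c u c)
      rw [hc] at h4
      by_cases hu : u = w'
      · subst hu
        rw [if_neg (Finset.notMem_erase _ _)]
        rw [if_pos hwS] at h4
        by_cases hcb : c = b'
        · subst hcb
          rw [if_pos (show Letter.c (D := D) u c = Letter.c u c from rfl)] at h4
          omega
        · have hcb' : c = !b' := bool_ne hcb
          subst hcb'
          rw [if_pos (show Letter.c (D := D) u (!b') = Letter.c u (!b') from rfl)] at h4
          omega
      · have i1 : ∀ b'' : Bool, ¬ Letter.c (D := D) w' b'' = Letter.c u c := by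
          intro b'' h5
          injection h5 with h6 _
          exact hu h6.symm
        rw [if_neg (i1 b'), if_neg (i1 (!b')), add_zero, add_zero] at h4
        rw [h4]
        exact if_congr (by rw [Finset.mem_erase]; exact ⟨fun h => ⟨hu, h⟩, fun h => h.2⟩) rfl rfl
    · intro e
      have h4 := hcE (.d e)
      rw [hd, if_neg (by simp), if_neg (by simp)] at h4
      omega
    · have h4 : (Vis src s (A ++ .c w' (!b') :: B)).erase y ⊆ Vis src (tgt (.c w' (!b'))) E := by
        intro t ht
        obtain ⟨ht1, ht2⟩ := Finset.mem_erase.mp ht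
        obtain ⟨u, hu, hut⟩ := hvis t ht2
        have hu1 : u ≠ .c w' (!b') := by
          rintro rfl
          exact ht1 (hut.symm.trans hxy)
        by_cases hu2 : u = .c w' b'
        · subst hu2
          refine mem_vis.mpr (Or.inl ?_)
          rw [← hut]
          have := st w' (!b')
          rw [Bool.not_not] at this
          exact this
        · refine mem_vis.mpr (Or.inr ⟨u, ?_, hut⟩)
          have h5 : u ∈ B ++ A := by
            rcases List.mem_append.mp hu with h | h
            · simp [h]
            · rcases List.mem_cons.mp h with h | h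
              · exact absurd h hu1
              · simp [h]
          rw [hEz] at h5
          rcases List.mem_append.mp h5 with h | h
          · exact h
          · exact absurd (List.mem_singleton.mp h) hu2
      refine le_trans ?_ (Finset.card_le_card h4)
      rw [Finset.card_erase_of_mem hy]
      omega
    · rcases hstr with h | ⟨u, hu, hus⟩
      · refine Or.inl (hcw.2 (Or.inl ?_))
        rw [hrotv]
        exact cone.conj_inv' _ _ h
      · by_cases huw : u = w'
        · subst huw
          exact Or.inl (hcw.2 (Or.inr (bar' u b' hus)))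
        · exact Or.inr ⟨u, Finset.mem_erase.mpr ⟨huw, hu⟩, hus⟩

variable [Fintype I] [Fintype W]

/-- **Spheres.** -/
theorem sphere [Fintype T] [Nonempty I] (H : Glue P P' src tgt val poly own str strp)
    (hd : ∀ i e, (poly i).count (.d e) = 0) (ht : ∀ t, ∃ i, ∃ z ∈ poly i, src z = t)
    (hcard : Fintype.card W + 2 ≤ Fintype.card I + Fintype.card T) (hstr : (∃ w, str w) ∨ ∃ i, strp i) : 1 ∈ P' := by
  obtain ⟨U, s, p, h⟩ := H.all
  have h1 : Fintype.card I = U.card + 1 := by
    rw [← h.card, Finset.card_univ]
  have h2 : (Uᶜ).card = Fintype.card W - U.card := Finset.card_compl U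
  have h3 : U.card ≤ Fintype.card W := Finset.card_le_univ U
  refine cancel H.cone H.st H.bar H.bar' (Uᶜ).card Uᶜ s p rfl h.walk ?_ ?_ ?_ h.pos ?_
  · intro w b
    rw [h.cnt]
    exact if_congr (by simp) rfl rfl
  · intro e
    rw [h.dead]
    exact Finset.sum_eq_zero fun i _ => hd i e
  · have h4 : Vis src s p = Finset.univ := by
      refine Finset.eq_univ_of_forall fun t => ?_
      obtain ⟨i, z, hz, h5⟩ := ht t
      rw [← h5]
      exact h.vis i (Finset.mem_univ _) z hz
    rw [h4, Finset.card_univ]
    omega
  · rcases hstr with ⟨w, hw⟩ | ⟨i, hi⟩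
    · by_cases hU : w ∈ U
      · exact Or.inl (h.str' (Or.inl ⟨w, hU, hw⟩))
      · exact Or.inr ⟨w, by simp [hU], hw⟩
    · exact Or.inl (h.str' (Or.inr ⟨i, Finset.mem_univ _, hi⟩))

/-- **Trees.** -/
theorem tree [Nonempty I] (H : Glue P P' src tgt val poly own str strp)
    (hcard : Fintype.card W + 1 ≤ Fintype.card I) :
    ∃ p : List (Letter W D), (∀ w b, p.count (.c w b) = 0) ∧
      (∀ e, p.count (.d e) = ∑ i, (poly i).count (.d e)) ∧ pr val p ∈ P ∧
      (((∃ w, str w) ∨ ∃ i, strp i) → pr val p ∈ P') := by
  obtain ⟨U, s, p, h⟩ := H.all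
  have h1 : Fintype.card I = U.card + 1 := by
    rw [← h.card, Finset.card_univ]
  have h3 : U.card ≤ Fintype.card W := Finset.card_le_univ U
  have h4 : U = Finset.univ := (Finset.card_eq_iff_eq_univ U).mp (by omega)
  refine ⟨p, fun w b => ?_, h.dead, h.pos, ?_⟩
  rotate_left
  · rintro (⟨w, hw⟩ | ⟨i, hi⟩)
    · exact h.str' (Or.inl ⟨w, by simp [h4], hw⟩)
    · exact h.str' (Or.inr ⟨i, Finset.mem_univ _, hi⟩)
  rw [h.cnt, h4]
  simp

omit [Fintype W] in
/-- The value of a word in commuting letters. -/
lemma pr_comm {val : Letter W Bool → G} {a b : G} (hab : Commute a b)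
    (ha : val (.d true) = a) (hb : val (.d false) = b) (p : List (Letter W Bool))
    (hp : ∀ w c, p.count (.c w c) = 0) :
    pr val p = a ^ p.count (.d true) * b ^ p.count (.d false) := by
  induction p with
  | nil => simp [pr]
  | cons x p ih =>
    have hx : ∀ w c, x ≠ .c w c := by
      rintro w c rfl
      have := hp w c
      rw [List.count_cons_self] at this
      omega
    have hp' : ∀ w c, p.count (.c w c) = 0 := by
      intro w c
      have := hp w c
      rw [List.count_cons_of_ne (hx w c)] at this
      exact this
    rw [pr_cons, ih hp']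
    cases x with
    | c w c => exact absurd rfl (hx w c)
    | d e =>
      cases e with
      | true =>
        rw [ha, List.count_cons_self, List.count_cons_of_ne (by simp), pow_succ']
        group
      | false =>
        rw [hb, List.count_cons_self, List.count_cons_of_ne (by simp), pow_succ', ← mul_assoc,
          ← mul_assoc, (hab.symm.pow_right _).eq]

/-- **Trees** with two commuting letters `a`, `b` besides the cells. -/
theorem tree_comm [Nonempty I] {src tgt : Letter W Bool → T} {val : Letter W Bool → G}
    {poly : I → List (Letter W Bool)} (H : Glue P P' src tgt val poly own str strp)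
    (hcard : Fintype.card W + 1 ≤ Fintype.card I) {a b : G} (hab : Commute a b)
    (ha : val (.d true) = a) (hb : val (.d false) = b) :
    a ^ (∑ i, (poly i).count (.d true)) * b ^ (∑ i, (poly i).count (.d false)) ∈ P ∧
      (((∃ w, str w) ∨ ∃ i, strp i) →
        a ^ (∑ i, (poly i).count (.d true)) * b ^ (∑ i, (poly i).count (.d false)) ∈ P') := by
  obtain ⟨p, h1, h2, h3, h4⟩ := tree H hcard
  rw [← h2, ← h2, ← pr_comm hab ha hb p h1]
  exact ⟨h3, h4⟩

end Pool.Agent.Helper52.PG
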